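import Mathlib

set_option autoImplicit false

/-! # Sums of units: fields with many embeddings -/

namespace Pool.Agent.X4.SU

open Finset NumberField Module

/-- the positive integers which are sums of `m` units of the ring of integers of `K` -/
def sumsOfUnits (K : Type) [Field K] [NumberField K] (m : ℕ) : Set ℕ :=
  {n | 0 < n ∧ ∃ u : Fin m → (𝓞 K)ˣ, (n : 𝓞 K) = ∑ i, (u i : 𝓞 K)}

section

variable {K : Type} [Field K] [NumberField K]

theorem mem_of_fintype {ι : Type} [Fintype ι] {m n : ℕ} (hm : Fintype.card ι = m)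
    (u : ι → (𝓞 K)ˣ) (h : (n : 𝓞 K) = ∑ i, (u i : 𝓞 K)) (hn : 0 < n) : n ∈ sumsOfUnits K m := by
  subst hm
  refine ⟨hn, fun i => u ((Fintype.equivFin ι).symm i), ?_⟩
  rw [h]
  exact (Equiv.sum_comp (Fintype.equivFin ι).symm (fun i => (u i : 𝓞 K))).symm

/-- the trace is the sum over the embeddings in a field which contains the conjugates -/
theorem trace_eq (E : IntermediateField ℚ K)
    (hE : ∀ x : E, ((minpoly ℚ x).map (algebraMap ℚ K)).Splits) (x : E) :
    algebraMap ℚ K (Algebra.trace ℚ E x) = ∑ σ : E →ₐ[ℚ] K, σ x := by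
  classical
  have h1 : Fintype.card (E →ₐ[ℚ] K) = finrank ℚ E := AlgHom.card_of_splits ℚ E K hE
  have h2 : Fintype.card (E →ₐ[ℚ] AlgebraicClosure K) = finrank ℚ E :=
    AlgHom.card ℚ E (AlgebraicClosure K)
  let ι : K →ₐ[ℚ] AlgebraicClosure K := IsScalarTower.toAlgHom ℚ K (AlgebraicClosure K)
  let f : (E →ₐ[ℚ] K) → (E →ₐ[ℚ] AlgebraicClosure K) := fun σ => ι.comp σ
  have hf : Function.Injective f := by
    intro σ τ h
    apply AlgHom.ext
    intro y
    have := DFunLike.congr_fun h y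
    exact ι.injective this
  have hb : Function.Bijective f :=
    (Fintype.bijective_iff_injective_and_card f).2 ⟨hf, by rw [h1, h2]⟩
  apply ι.injective
  show ι (algebraMap ℚ K (Algebra.trace ℚ E x)) = ι (∑ σ : E →ₐ[ℚ] K, σ x)
  rw [map_sum, AlgHom.commutes, trace_eq_sum_embeddings (AlgebraicClosure K)]
  exact (Function.Bijective.sum_comp hb (fun τ => τ x)).symm

/-- an infinite group of units contains an element of infinite order -/
theorem exists_unit (F : Type) [Field F] [NumberField F] (h : Infinite (𝓞 F)ˣ) :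
    ∃ ε : (𝓞 F)ˣ, ∀ n : ℕ, 0 < n → ε ^ n ≠ 1 := by
  by_contra hcon
  push Not at hcon
  have h1 : (Units.torsion F : Subgroup (𝓞 F)ˣ) = ⊤ := by
    rw [eq_top_iff]
    intro ε _
    obtain ⟨n, hn, he⟩ := hcon ε
    rw [NumberField.Units.torsion, CommGroup.mem_torsion, isOfFinOrder_iff_pow_eq_one]
    exact ⟨n, hn, he⟩
  have h2 : Finite (Units.torsion F : Subgroup (𝓞 F)ˣ) := inferInstance
  rw [h1] at h2
  have h3 : Finite (𝓞 F)ˣ := Finite.of_equiv _ (Subgroup.topEquiv (G := (𝓞 F)ˣ)).toEquiv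
  exact not_finite (𝓞 F)ˣ

/-- the traces of the powers of a unit of infinite order take infinitely many values -/
theorem traces_infinite (F : Type) [Field F] [NumberField F] (ε : (𝓞 F)ˣ)
    (hε : ∀ n : ℕ, 0 < n → ε ^ n ≠ 1) :
    (Set.range fun j : ℕ => Algebra.trace ℤ (𝓞 F) ((ε : 𝓞 F) ^ j)).Infinite := by
  classical
  intro hfin
  obtain ⟨e, he⟩ : ∃ e : F, e = ((ε : 𝓞 F) : F) := ⟨_, rfl⟩
  have he0 : e ≠ 0 := by
    rw [he]
    exact NumberField.Units.coe_ne_zero ε
  have hT : ∀ j : ℕ, ((Algebra.trace ℤ (𝓞 F) ((ε : 𝓞 F) ^ j) : ℤ) : ℚ) =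
      Algebra.trace ℚ F (e ^ j) := by
    intro j
    rw [Algebra.coe_trace_int, he]
    push_cast
    rfl
  set k := (minpoly ℚ e).natDegree with hk
  let W : ℕ → (Fin k → ℤ) := fun j i => Algebra.trace ℤ (𝓞 F) ((ε : 𝓞 F) ^ (j + i))
  have hW : (Set.range W).Finite := by
    refine (Set.Finite.pi' (fun _ : Fin k => hfin)).subset ?_
    rintro _ ⟨j, rfl⟩ i
    exact ⟨j + i, rfl⟩
  have hni : ¬ Function.Injective W := fun h => Set.infinite_range_of_injective h hW
  unfold Function.Injective at hni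
  push Not at hni
  obtain ⟨j, j', hjj, hne⟩ := hni
  have hint : IsIntegral ℚ e := Algebra.IsIntegral.isIntegral e
  set x : F := e ^ j - e ^ j' with hx
  have hx0 : x ≠ 0 := by
    intro h
    rw [hx, sub_eq_zero] at h
    have h2 : ∀ a b : ℕ, a < b → e ^ a = e ^ b → False := by
      intro a b hab h3
      have h4 : e ^ (b - a) = 1 := by
        have h5 : e ^ a * e ^ (b - a) = e ^ a * 1 := by
          rw [← pow_add, mul_one, Nat.add_sub_cancel' hab.le, h3]
        exact mul_left_cancel₀ (pow_ne_zero _ he0) h5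
      apply hε (b - a) (Nat.sub_pos_of_lt hab)
      apply Units.ext
      apply NumberField.RingOfIntegers.ext
      rw [he] at h4
      push_cast
      exact h4
    rcases lt_or_gt_of_ne hne with h3 | h3
    · exact h2 _ _ h3 h
    · exact h2 _ _ h3 h.symm
  have h1 : ∀ i < k, Algebra.trace ℚ F (x * e ^ i) = 0 := by
    intro i hi
    have h2 := congrFun hjj ⟨i, hi⟩
    simp only [W] at h2
    have h3 := congrArg (fun z : ℤ => (z : ℚ)) h2
    simp only [hT] at h3
    rw [hx, sub_mul, ← pow_add, ← pow_add, map_sub, h3, sub_self]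
  have h2 : ∀ P : Polynomial ℚ, Algebra.trace ℚ F (x * Polynomial.aeval e P) = 0 := by
    intro P
    have h3 : Polynomial.aeval e P = Polynomial.aeval e (P %ₘ minpoly ℚ e) := by
      conv_lhs => rw [← Polynomial.modByMonic_add_div P (minpoly ℚ e)]
      rw [map_add, map_mul, minpoly.aeval, zero_mul, add_zero]
    rw [h3]
    have h4 : (P %ₘ minpoly ℚ e).degree < (minpoly ℚ e).degree :=
      Polynomial.degree_modByMonic_lt _ (minpoly.monic hint)
    have h5 : (P %ₘ minpoly ℚ e).natDegree < k ∨ P %ₘ minpoly ℚ e = 0 := by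
      by_cases h : P %ₘ minpoly ℚ e = 0
      · exact Or.inr h
      · left
        exact Polynomial.natDegree_lt_natDegree h h4
    rcases h5 with h5 | h5
    · rw [Polynomial.aeval_eq_sum_range' h5, Finset.mul_sum, map_sum]
      refine Finset.sum_eq_zero fun i hi => ?_
      rw [mul_smul_comm, map_smul, h1 i (Finset.mem_range.1 hi), smul_zero]
    · rw [h5, map_zero, mul_zero, map_zero]
  have h3 : x⁻¹ ∈ Algebra.adjoin ℚ {e} := by
    have h4 : x ∈ Algebra.adjoin ℚ {e} :=
      sub_mem (pow_mem (Algebra.self_mem_adjoin_singleton ℚ e) _)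
        (pow_mem (Algebra.self_mem_adjoin_singleton ℚ e) _)
    exact Subalgebra.inv_mem_of_algebraic (A := Algebra.adjoin ℚ {e}) (x := ⟨x, h4⟩)
      (Algebra.IsAlgebraic.isAlgebraic _)
  rw [Algebra.adjoin_singleton_eq_range_aeval] at h3
  obtain ⟨P, hP⟩ := h3
  have hP' : Polynomial.aeval e P = x⁻¹ := hP
  have h4 := h2 P
  have h6 : Algebra.trace ℚ F 1 = (finrank ℚ F : ℚ) := by
    have := Algebra.trace_algebraMap (S := F) (1 : ℚ)
    rw [map_one] at this
    simpa using this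
  rw [hP', mul_inv_cancel₀ hx0, h6] at h4
  have h5 := Module.finrank_pos (R := ℚ) (M := F)
  rw [Nat.cast_eq_zero] at h4
  omega

/-- **Fields with many units.** -/
theorem backward (m : ℕ) (E : IntermediateField ℚ K) (hm : finrank ℚ E ≤ m)
    (hE : ∀ x : E, ((minpoly ℚ x).map (algebraMap ℚ K)).Splits) (hinf : Infinite (𝓞 E)ˣ) :
    (sumsOfUnits K m).Infinite := by
  classical
  obtain ⟨ε, hε⟩ := exists_unit E hinf
  have h1 := traces_infinite E ε hε
  set T : ℕ → ℤ := fun j => Algebra.trace ℤ (𝓞 E) ((ε : 𝓞 E) ^ j) with hT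
  -- the absolute values
  have h2 : ((fun z : ℤ => z.natAbs + (m - finrank ℚ E)) '' (Set.range T \ {0})).Infinite := by
    intro hfin
    have h3 : (Set.range T \ {0}).Infinite := h1.sdiff (Set.finite_singleton 0)
    apply h3
    have h4 : (Set.range T \ {0}) ⊆ ⋃ n ∈ ((fun z : ℤ => z.natAbs + (m - finrank ℚ E)) ''
        (Set.range T \ {0})), ({(((n - (m - finrank ℚ E) : ℕ) : ℤ)),
          -(((n - (m - finrank ℚ E) : ℕ) : ℤ))} : Set ℤ) := by
      intro z hz
      rw [Set.mem_iUnion₂]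
      refine ⟨z.natAbs + (m - finrank ℚ E), ⟨z, hz, rfl⟩, ?_⟩
      rw [Nat.add_sub_cancel]
      rcases Int.natAbs_eq z with h | h
      · exact Or.inl h
      · exact Or.inr h
    exact (hfin.biUnion fun n _ => Set.toFinite _).subset h4
  refine h2.mono ?_
  rintro _ ⟨z, ⟨⟨j, rfl⟩, hz⟩, rfl⟩
  have hz0 : T j ≠ 0 := hz
  -- the sign
  obtain ⟨s, hs⟩ : ∃ s : (𝓞 K)ˣ, ((T j).natAbs : 𝓞 K) = (s : 𝓞 K) * ((T j : ℤ) : 𝓞 K) := by
    rcases Int.natAbs_eq (T j) with h | h
    · refine ⟨1, ?_⟩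
      rw [Units.val_one, one_mul, h]
      simp
    · refine ⟨-1, ?_⟩
      rw [Units.val_neg, Units.val_one, neg_one_mul]
      conv_rhs => rw [h]
      simp
  have hcard : Fintype.card (E →ₐ[ℚ] K) = finrank ℚ E := AlgHom.card_of_splits ℚ E K hE
  let u : (E →ₐ[ℚ] K) ⊕ Fin (m - finrank ℚ E) → (𝓞 K)ˣ :=
    Sum.elim (fun σ => s * (Units.map (RingOfIntegers.mapRingHom (σ : E →+* K) : 𝓞 E →* 𝓞 K) ε) ^ j)
      (fun _ => 1)
  refine mem_of_fintype (ι := (E →ₐ[ℚ] K) ⊕ Fin (m - finrank ℚ E)) ?_ u ?_ ?_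
  · rw [Fintype.card_sum, hcard, Fintype.card_fin]
    omega
  · rw [Fintype.sum_sum_type]
    simp only [u, Sum.elim_inl, Sum.elim_inr, Units.val_one, Finset.sum_const, Finset.card_univ,
      Fintype.card_fin, nsmul_eq_mul, mul_one]
    rw [Nat.cast_add, hs]
    congr 1
    simp only [Units.val_mul, Units.val_pow_eq_pow_val]
    rw [← Finset.mul_sum]
    congr 1
    apply RingOfIntegers.ext
    have h5 := trace_eq E hE (((ε : 𝓞 E) : E) ^ j)
    have h6 : (Algebra.trace ℚ E (((ε : 𝓞 E) : E) ^ j)) = ((T j : ℤ) : ℚ) := by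
      rw [hT]
      simp only
      rw [Algebra.coe_trace_int]
      push_cast
      rfl
    rw [h6] at h5
    have h7 : (((T j : ℤ) : 𝓞 K) : K) = ((T j : ℤ) : K) := by simp
    have h8 : algebraMap ℚ K ((T j : ℤ) : ℚ) = ((T j : ℤ) : K) := by simp
    rw [h7, ← h8, h5]
    show _ = algebraMap (𝓞 K) K (∑ i : E →ₐ[ℚ] K, _)
    rw [map_sum]
    refine Finset.sum_congr rfl fun σ _ => ?_
    rw [map_pow, map_pow]
    rfl
  · exact Nat.add_pos_left (Int.natAbs_pos.2 hz0) _

end

end Pool.Agent.X4.SU
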