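import Mathlib
import Pool.Agent.Y215.SK.FinA

set_option autoImplicit false

/-! # The ratios of the terms in the nondegenerate unit equation -/

namespace Pool.Agent.X4.SU

open Finset NumberField Height Module
open Pool.Agent.Helper259.AbsHt Pool.Agent.H533R3.SL Pool.Agent.Y215.SK

/-- the vectors of the equation `u₀ + ⋯ + u_r = 0` -/
noncomputable def vec (r : ℕ) (j : Fin (r + 1)) (a : Fin 2) : Qbar :=
  if j = 0 then (if a = 0 then 0 else -1) else (if a = 0 then 1 else 0)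

theorem vec_zero0 (r : ℕ) : vec r 0 0 = 0 := by simp [vec]
theorem vec_zero1 (r : ℕ) : vec r 0 1 = -1 := by simp [vec]
theorem vec_succ0 (r : ℕ) {j : Fin (r + 1)} (h : j ≠ 0) : vec r j 0 = 1 := by simp [vec, h]
theorem vec_succ1 (r : ℕ) {j : Fin (r + 1)} (h : j ≠ 0) : vec r j 1 = 0 := by simp [vec, h]

theorem psum0 (r : ℕ) (J : Finset (Fin (r + 1))) (u : Fin (r + 1) → Qbarˣ) :
    psum J u (vec r) 0 = ∑ j ∈ J.erase 0, (u j : Qbar) := by
  classical
  unfold psum
  by_cases h : (0 : Fin (r + 1)) ∈ J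
  · rw [← Finset.add_sum_erase _ _ h, vec_zero0, mul_zero, zero_add]
    refine Finset.sum_congr rfl fun j hj => ?_
    rw [vec_succ0 r (Finset.ne_of_mem_erase hj), mul_one]
  · rw [Finset.erase_eq_of_notMem h]
    refine Finset.sum_congr rfl fun j hj => ?_
    rw [vec_succ0 r (fun e => h (e ▸ hj)), mul_one]

theorem psum1 (r : ℕ) (J : Finset (Fin (r + 1))) (u : Fin (r + 1) → Qbarˣ) :
    psum J u (vec r) 1 = if (0 : Fin (r + 1)) ∈ J then -(u 0 : Qbar) else 0 := by
  classical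
  unfold psum
  split_ifs with h
  · rw [← Finset.add_sum_erase _ _ h, vec_zero1, mul_neg_one,
      Finset.sum_eq_zero (s := J.erase 0), add_zero]
    intro j hj
    rw [vec_succ1 r (Finset.ne_of_mem_erase hj), mul_zero]
  · refine Finset.sum_eq_zero fun j hj => ?_
    rw [vec_succ1 r (fun e => h (e ▸ hj)), mul_zero]

/-- **The unit equation: bounded heights.** -/
theorem bounded (Γ : Subgroup Qbarˣ) (hΓ : Γ.FG) (r : ℕ) :
    ∃ C : ℝ, ∀ u : Fin (r + 1) → Qbarˣ, (∀ j, u j ∈ Γ) → ∑ j, (u j : Qbar) = 0 →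
      (∀ J : Finset (Fin (r + 1)), J.Nonempty → ∑ j ∈ J, (u j : Qbar) = 0 → J = univ) →
      ∀ i j, h1 ((u i : Qbar) / u j) ≤ C := by
  classical
  obtain ⟨C, hC⟩ := mult_boundT (k := ℚ) (r := r + 1) (n := 1) (N := 1)
    (fun _ => MvPolynomial.X 0 - MvPolynomial.X 1)
    (fun _ => ⟨1, (MvPolynomial.isHomogeneous_X _ _).sub (MvPolynomial.isHomogeneous_X _ _)⟩)
    1 ⟨0, MvPolynomial.isHomogeneous_one _ _⟩ Set.univ
    (by
      intro L _ _ c l _ h1 h2
      exfalso
      have h3 := h1 0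
      rw [map_sub, MvPolynomial.aeval_X, MvPolynomial.aeval_X, sub_eq_zero] at h3
      have h4 : ∑ j, c j 0 = ∑ j, c j 1 := by
        have h5 := congrArg (Polynomial.eval 1) h3
        unfold cur at h5
        simpa [Polynomial.eval_finset_sum] using h5
      obtain ⟨i, i', h5⟩ := h2
      apply h5
      have h6 : ∀ a b : Fin 2, cur c l a = cur c l b := by
        intro a b
        fin_cases a <;> fin_cases b
        · rfl
        · exact h3
        · exact h3.symm
        · rfl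
      have h7 : ∀ a b : Fin 2, ∑ j, c j a = ∑ j, c j b := by
        intro a b
        fin_cases a <;> fin_cases b
        · rfl
        · exact h4
        · exact h4.symm
        · rfl
      rw [h6 i i', h7 i i'])
    Γ hΓ
  refine ⟨C * (1 + hV (vec r)), fun u hu hsum hnd i j => ?_⟩
  have h0 : ∑ j ∈ univ.erase 0, (u j : Qbar) = -(u 0 : Qbar) := by
    have h1 := Finset.add_sum_erase univ (fun j => (u j : Qbar)) (Finset.mem_univ 0)
    rw [hsum] at h1
    linear_combination h1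
  have hne : -(u 0 : Qbar) ≠ 0 := neg_ne_zero.2 (u 0).ne_zero
  obtain ⟨J, ⟨hJ1, a, hJ2⟩, hJ3⟩ := hC u (vec r) (fun j a h => absurd (Set.mem_univ _) h)
    (fun j => ⟨1, one_pos, by rw [pow_one]; exact hu j⟩)
    ⟨by
      intro h
      have h2 := congrFun h 0
      rw [psum0, h0] at h2
      exact hne h2, by
      intro _
      rw [map_sub, MvPolynomial.aeval_X, MvPolynomial.aeval_X, psum0, psum1, h0,
        if_pos (Finset.mem_univ _), sub_self], by
      rw [map_one]
      exact one_ne_zero⟩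
  have h2 := hJ1 0 1
  rw [psum0 r univ, psum1 r univ, h0, if_pos (Finset.mem_univ _)] at h2
  have h3 : psum J u (vec r) 0 = psum J u (vec r) 1 := mul_right_cancel₀ hne h2
  have h4 : psum J u (vec r) 0 ≠ 0 := by
    intro h
    apply hJ2
    fin_cases a
    · exact h
    · exact h3 ▸ h
  have h5 : (0 : Fin (r + 1)) ∈ J := by
    by_contra h
    rw [h3, psum1, if_neg h] at h4
    exact h4 rfl
  have h6 : ∑ j ∈ J, (u j : Qbar) = 0 := by
    rw [← Finset.add_sum_erase _ _ h5, ← psum0, h3, psum1, if_pos h5]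
    ring
  have h7 : J = univ := hnd J ⟨0, h5⟩ h6
  subst h7
  have h8 := h1_ratio_le (fun j : (univ : Finset (Fin (r + 1))) => (u j : Qbar))
    ⟨i, Finset.mem_univ i⟩ ⟨j, Finset.mem_univ j⟩ (u j).ne_zero
  exact h8.trans hJ3

/-- **The unit equation: finitely many ratios.** -/
theorem ratios (L : Type) [Field L] [NumberField L] (r : ℕ) :
    ∃ R : Set L, R.Finite ∧ ∀ u : Fin (r + 1) → (𝓞 L)ˣ, ∑ i, ((u i : 𝓞 L) : L) = 0 →
      (∀ J : Finset (Fin (r + 1)), J.Nonempty → ∑ i ∈ J, ((u i : 𝓞 L) : L) = 0 → J = univ) →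
      ∀ i j, ((u i : 𝓞 L) : L) / ((u j : 𝓞 L) : L) ∈ R := by
  classical
  obtain ⟨φ⟩ : Nonempty (L →ₐ[ℚ] Qbar) := ⟨IsAlgClosed.lift⟩
  let f : (𝓞 L)ˣ →* Qbarˣ := Units.map ((φ : L →* Qbar).comp (algebraMap (𝓞 L) L : 𝓞 L →* L))
  have hf : ∀ u : (𝓞 L)ˣ, ((f u : Qbarˣ) : Qbar) = φ ((u : 𝓞 L) : L) := fun u => rfl
  have hfg : Monoid.FG (𝓞 L)ˣ := inferInstance
  have hΓ : (f.range).FG := by
    have h1 : Group.FG (𝓞 L)ˣ := Group.fg_iff_monoid_fg.2 hfg
    have h2 : Group.FG f.range := Group.fg_range f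
    exact (Group.fg_iff_subgroup_fg _).1 h2
  obtain ⟨C, hC⟩ := bounded f.range hΓ r
  refine ⟨{x : L | logHeight₁ x ≤ C * finrank ℚ L},
    Northcott.finite_le (h := fun x : L => logHeight₁ x) (C * finrank ℚ L), ?_⟩
  intro u hsum hnd i j
  have h1 := hC (fun i => f (u i)) (fun i => ⟨u i, rfl⟩)
    (by
      simp only [hf]
      rw [← map_sum, hsum, map_zero])
    (by
      intro J hJ h
      simp only [hf] at h
      rw [← map_sum, map_eq_zero] at h
      exact hnd J hJ h) i j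
  simp only [hf] at h1
  rw [← map_div₀] at h1
  have h2 := h1_eq L (φ : L →+* Qbar) (((u i : 𝓞 L) : L) / ((u j : 𝓞 L) : L))
  have hpos : (0 : ℝ) < finrank ℚ L := by exact_mod_cast Module.finrank_pos
  have h3 : Pool.Agent.Y215.SK.h1 ((φ : L →+* Qbar) (((u i : 𝓞 L) : L) / ((u j : 𝓞 L) : L))) ≤ C := h1
  rw [h2, div_le_iff₀ hpos] at h3
  exact h3

end Pool.Agent.X4.SU
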