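import Mathlib
import Pool.Agent.X4.SU.UE
import Pool.Agent.X4.SU.Bwd

set_option autoImplicit false

/-! # Sums of units: the classes of the terms are permuted by the Galois group -/

namespace Pool.Agent.X4.SU

open Finset NumberField Module Filter

/-- the ultrafilter -/
noncomputable abbrev UF : Ultrafilter ℕ := Filter.hyperfilter ℕ

theorem const_of_finite {α : Type} (f : ℕ → α) {S : Set α} (hS : S.Finite)
    (h : ∀ᶠ t in (UF : Filter ℕ), f t ∈ S) : ∃ c ∈ S, ∀ᶠ t in (UF : Filter ℕ), f t = c := by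
  have h1 : ∀ᶠ t in (UF : Filter ℕ), ∃ c ∈ S, f t = c := h.mono fun t ht => ⟨f t, ht, rfl⟩
  exact (Ultrafilter.eventually_exists_mem_iff hS).1 h1

theorem ratios_finset (L : Type) [Field L] [NumberField L] {ι : Type} [DecidableEq ι]
    (A : Finset ι) : ∃ R : Set L, R.Finite ∧ ∀ u : ι → (𝓞 L)ˣ,
      ∑ i ∈ A, ((u i : 𝓞 L) : L) = 0 →
      (∀ J ⊆ A, J.Nonempty → ∑ i ∈ J, ((u i : 𝓞 L) : L) = 0 → J = A) →
      ∀ i ∈ A, ∀ j ∈ A, ((u i : 𝓞 L) : L) / ((u j : 𝓞 L) : L) ∈ R := by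
  rcases A.eq_empty_or_nonempty with rfl | hA
  · exact ⟨∅, Set.finite_empty, fun _ _ _ i hi => absurd hi (Finset.notMem_empty i)⟩
  · obtain ⟨r, hr⟩ : ∃ r, A.card = r + 1 := ⟨A.card - 1, by
      have := hA.card_pos
      omega⟩
    obtain ⟨R, hR, h⟩ := ratios L r
    let e : Fin (r + 1) ≃ A := (A.equivFinOfCardEq hr).symm
    let g : Fin (r + 1) ↪ ι := e.toEmbedding.trans (Function.Embedding.subtype _)
    have hg : ∀ i, g i ∈ A := fun i => (e i).2
    have hmap : (univ : Finset (Fin (r + 1))).map g = A := by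
      apply Finset.eq_of_subset_of_card_le
      · intro x hx
        obtain ⟨i, -, rfl⟩ := Finset.mem_map.1 hx
        exact hg i
      · rw [Finset.card_map, Finset.card_univ, Fintype.card_fin, hr]
    refine ⟨R, hR, fun u hsum hnd i hi j hj => ?_⟩
    have h1 := h (fun i => u (g i))
      (by
        rw [← hsum, ← hmap, Finset.sum_map])
      (by
        intro J hJ hs
        have h2 := hnd (J.map g)
          (by
            intro x hx
            obtain ⟨i, -, rfl⟩ := Finset.mem_map.1 hx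
            exact hg i)
          (hJ.map) (by rw [Finset.sum_map]; exact hs)
        rw [← hmap] at h2
        exact Finset.map_injective g h2)
      (e.symm ⟨i, hi⟩) (e.symm ⟨j, hj⟩)
    have h3 : ∀ (i : ι) (hi : i ∈ A), g (e.symm ⟨i, hi⟩) = i := by
      intro i hi
      show ((e (e.symm ⟨i, hi⟩) : A) : ι) = i
      rw [Equiv.apply_symm_apply]
    simp only [h3] at h1
    exact h1

section

variable {L : Type} [Field L] [NumberField L] {ι : Type}

/-- proportional along the ultrafilter -/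
def Rel (w : ι → ℕ → L) (i j : ι) : Prop := ∃ c : L, ∀ᶠ t in (UF : Filter ℕ), w i t = c * w j t

theorem Rel.refl (w : ι → ℕ → L) (i : ι) : Rel w i i :=
  ⟨1, Eventually.of_forall fun t => (one_mul _).symm⟩

theorem Rel.symm {w : ι → ℕ → L} (hw : ∀ i t, w i t ≠ 0) {i j : ι} (h : Rel w i j) :
    Rel w j i := by
  obtain ⟨c, hc⟩ := h
  refine ⟨c⁻¹, hc.mono fun t ht => ?_⟩
  have hc0 : c ≠ 0 := by
    rintro rfl
    rw [zero_mul] at ht
    exact hw i t ht
  rw [ht, inv_mul_cancel_left₀ hc0]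

theorem Rel.trans {w : ι → ℕ → L} {i j k : ι} (h : Rel w i j) (h' : Rel w j k) : Rel w i k := by
  obtain ⟨c, hc⟩ := h
  obtain ⟨d, hd⟩ := h'
  refine ⟨c * d, ?_⟩
  filter_upwards [hc, hd] with t h1 h2
  rw [h1, h2, mul_assoc]

/-- **Classes.** The sum over a union of classes vanishes. -/
theorem class_sum [DecidableEq ι] (u : ι → ℕ → (𝓞 L)ˣ) (P : ι → Prop) [DecidablePred P]
    (hP : ∀ i j, Rel (fun i t => ((u i t : 𝓞 L) : L)) i j → (P i ↔ P j)) (A : Finset ι) :
    (∀ᶠ t in (UF : Filter ℕ), ∑ i ∈ A, ((u i t : 𝓞 L) : L) = 0) →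
      ∀ᶠ t in (UF : Filter ℕ), ∑ i ∈ A with P i, ((u i t : 𝓞 L) : L) = 0 := by
  induction A using Finset.strongInduction with
  | H A ih =>
  intro hA
  by_cases h : ∃ B ⊆ A, B.Nonempty ∧ B ≠ A ∧
      ∀ᶠ t in (UF : Filter ℕ), ∑ i ∈ B, ((u i t : 𝓞 L) : L) = 0
  · obtain ⟨B, hBA, hBn, hne, hB⟩ := h
    have h1 := ih B (hBA.ssubset_of_ne hne) hB
    have h2 := ih (A \ B) (Finset.sdiff_ssubset hBA hBn) (by
      filter_upwards [hA, hB] with t h3 h4
      rw [← Finset.sum_sdiff hBA, h4, add_zero] at h3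
      exact h3)
    filter_upwards [h1, h2] with t h3 h4
    have h5 : A.filter P = (A \ B).filter P ∪ B.filter P := by
      rw [← Finset.filter_union, Finset.sdiff_union_of_subset hBA]
    rw [h5, Finset.sum_union, h3, h4, add_zero]
    exact (Finset.sdiff_disjoint).mono (Finset.filter_subset _ _) (Finset.filter_subset _ _)
  · push Not at h
    have h1 : ∀ B ∈ A.powerset, ∀ᶠ t in (UF : Filter ℕ),
        B.Nonempty → ∑ i ∈ B, ((u i t : 𝓞 L) : L) = 0 → B = A := by
      intro B hB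
      by_cases hn : B.Nonempty
      · by_cases he : B = A
        · exact Eventually.of_forall fun t _ _ => he
        · have h2 := h B (Finset.mem_powerset.1 hB) hn he
          exact h2.mono fun t ht _ h3 => absurd h3 ht
      · exact Eventually.of_forall fun t h3 => absurd h3 hn
    have h2 : ∀ᶠ t in (UF : Filter ℕ), ∀ B ∈ A.powerset,
        B.Nonempty → ∑ i ∈ B, ((u i t : 𝓞 L) : L) = 0 → B = A :=
      (Filter.eventually_all_finset _).2 h1
    obtain ⟨R, hR, h3⟩ := ratios_finset L A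
    have h4 : ∀ i ∈ A, ∀ j ∈ A, Rel (fun i t => ((u i t : 𝓞 L) : L)) i j := by
      intro i hi j hj
      have h5 : ∀ᶠ t in (UF : Filter ℕ), ((u i t : 𝓞 L) : L) / ((u j t : 𝓞 L) : L) ∈ R := by
        filter_upwards [hA, h2] with t h6 h7
        exact h3 (fun i => u i t) h6 (fun J hJ => h7 J (Finset.mem_powerset.2 hJ)) i hi j hj
      obtain ⟨c, -, hc⟩ := const_of_finite _ hR h5
      refine ⟨c, hc.mono fun t ht => ?_⟩
      have h8 : ((u j t : 𝓞 L) : L) ≠ 0 := NumberField.Units.coe_ne_zero _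
      show ((u i t : 𝓞 L) : L) = c * ((u j t : 𝓞 L) : L)
      rw [← ht, div_mul_cancel₀ _ h8]
    by_cases h5 : ∃ i ∈ A, P i
    · obtain ⟨i, hi, hPi⟩ := h5
      have h6 : A.filter P = A := by
        rw [Finset.filter_eq_self]
        intro j hj
        exact (hP j i (h4 j hj i hi)).2 hPi
      rw [h6]
      exact hA
    · have h6 : A.filter P = ∅ := by
        rw [Finset.filter_eq_empty_iff]
        intro j hj hPj
        exact h5 ⟨j, hj, hPj⟩
      rw [h6]
      exact Eventually.of_forall fun t => Finset.sum_empty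

end

/-- proportionality descends to subfields -/
theorem descend {K L : Type} [Field K] [Field L] (ψ : K →+* L) (x y : ℕ → K)
    (hy : ∀ t, y t ≠ 0) (h : ∃ c : L, ∀ᶠ t in (UF : Filter ℕ), ψ (x t) = c * ψ (y t)) :
    ∃ c : K, ∀ᶠ t in (UF : Filter ℕ), x t = c * y t := by
  obtain ⟨c, hc⟩ := h
  obtain ⟨t0, ht0⟩ := hc.exists
  refine ⟨x t0 / y t0, hc.mono fun t ht => ?_⟩
  have h1 : ψ (x t * y t0) = ψ (x t0 * y t) := by
    rw [map_mul, map_mul, ht, ht0]
    ring
  have h2 := ψ.injective h1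
  rw [div_mul_eq_mul_div, eq_div_iff (hy t0), h2]

section

variable {K : Type} [Field K] [NumberField K]

/-- **The Galois group permutes the classes.** -/
theorem perm {L : Type} [Field L] [NumberField L] [Algebra K L] {m : ℕ} (n : ℕ → ℕ)
    (u : Fin m → ℕ → (𝓞 K)ˣ) (I : Finset (Fin m))
    (h1 : ∀ᶠ t in (UF : Filter ℕ), ∑ i ∈ I, ((u i t : 𝓞 K) : K) = n t)
    (h2 : ∀ J ⊆ I, J.Nonempty → ¬ ∀ᶠ t in (UF : Filter ℕ), ∑ i ∈ J, ((u i t : 𝓞 K) : K) = 0)
    (C : Fin m → Finset (Fin m))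
    (hC : ∀ i j, j ∈ C i ↔ j ∈ I ∧ Rel (fun i t => ((u i t : 𝓞 K) : K)) j i)
    (σ : L ≃ₐ[ℚ] L) (i0 : Fin m) (hi0 : i0 ∈ I) :
    ∃ i1 ∈ I, ∀ᶠ t in (UF : Filter ℕ),
      σ (algebraMap K L (∑ i ∈ C i0, ((u i t : 𝓞 K) : K))) =
        algebraMap K L (∑ i ∈ C i1, ((u i t : 𝓞 K) : K)) := by
  classical
  set a : Fin m → ℕ → K := fun i t => ((u i t : 𝓞 K) : K) with ha
  have ha0 : ∀ i t, a i t ≠ 0 := fun i t => NumberField.Units.coe_ne_zero _
  let ψ : K →+* L := algebraMap K L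
  let ψ' : K →+* L := (σ : L →+* L).comp ψ
  let w : Fin m ⊕ Fin m → ℕ → (𝓞 L)ˣ := Sum.elim
    (fun i t => Units.map (RingOfIntegers.mapRingHom ψ : 𝓞 K →* 𝓞 L) (u i t))
    (fun i t => -Units.map (RingOfIntegers.mapRingHom ψ' : 𝓞 K →* 𝓞 L) (u i t))
  set W : Fin m ⊕ Fin m → ℕ → L := fun x t => ((w x t : 𝓞 L) : L) with hW
  have hWl : ∀ i t, W (Sum.inl i) t = ψ (a i t) := fun i t => rfl
  have hWr : ∀ i t, W (Sum.inr i) t = -ψ' (a i t) := by
    intro i t
    show (((-Units.map (RingOfIntegers.mapRingHom ψ' : 𝓞 K →* 𝓞 L) (u i t) : (𝓞 L)ˣ) : 𝓞 L) : L)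
      = _
    rw [Units.val_neg]
    show algebraMap (𝓞 L) L (-_) = _
    rw [map_neg]
    rfl
  have hW0 : ∀ x t, W x t ≠ 0 := fun x t => NumberField.Units.coe_ne_zero _
  let P : Fin m ⊕ Fin m → Prop := fun x => Rel W x (Sum.inr i0)
  have hP : ∀ x y, Rel W x y → (P x ↔ P y) := fun x y h =>
    ⟨fun h' => (h.symm hW0).trans h', fun h' => h.trans h'⟩
  have hsum : ∀ᶠ t in (UF : Filter ℕ), ∑ x ∈ I.disjSum I, W x t = 0 := by
    filter_upwards [h1] with t ht
    rw [Finset.sum_disjSum]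
    simp only [hWl, hWr]
    rw [Finset.sum_neg_distrib, ← map_sum ψ, ← map_sum ψ']
    have h0 : ∑ i ∈ I, a i t = (n t : K) := ht
    rw [h0, map_natCast, map_natCast, add_neg_cancel]
  have h3 := class_sum w P hP (I.disjSum I) hsum
  have h4 : (I.disjSum I).filter P =
      (I.filter fun i => P (Sum.inl i)).disjSum (I.filter fun i => P (Sum.inr i)) := by
    ext x
    rcases x with i | i
    · simp
    · simp
  rw [h4] at h3
  -- the right part
  have h5 : (I.filter fun i => P (Sum.inr i)) = C i0 := by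
    ext i
    rw [Finset.mem_filter, hC]
    refine and_congr_right fun _ => ⟨?_, ?_⟩
    · rintro ⟨c, hc⟩
      refine descend ψ' (a i) (a i0) (ha0 i0) ⟨c, hc.mono fun t ht => ?_⟩
      rw [hWr, hWr] at ht
      linear_combination -ht
    · rintro ⟨c, hc⟩
      refine ⟨ψ' c, hc.mono fun t ht => ?_⟩
      rw [hWr, hWr]
      have h6 : a i t = c * a i0 t := ht
      rw [h6, map_mul]
      ring
  have hmem : i0 ∈ C i0 := (hC i0 i0).2 ⟨hi0, Rel.refl _ _⟩
  have hsub : C i0 ⊆ I := fun i hi => ((hC i0 i).1 hi).1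
  have h6 : ∀ᶠ t in (UF : Filter ℕ),
      ∑ i ∈ I with P (Sum.inl i), ψ (a i t) = ψ' (∑ i ∈ C i0, a i t) := by
    filter_upwards [h3] with t ht
    rw [Finset.sum_disjSum, h5] at ht
    have h7 : ∑ i ∈ I with P (Sum.inl i), W (Sum.inl i) t + ∑ i ∈ C i0, W (Sum.inr i) t = 0 := ht
    simp only [hWl, hWr] at h7
    rw [Finset.sum_neg_distrib, ← map_sum ψ'] at h7
    linear_combination h7
  -- the left part is not empty
  obtain ⟨i1, hi1, hPi1⟩ : ∃ i1 ∈ I, P (Sum.inl i1) := by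
    by_contra hcon
    push Not at hcon
    have h7 : (I.filter fun i => P (Sum.inl i)) = ∅ := by
      rw [Finset.filter_eq_empty_iff]
      exact fun i hi => hcon i hi
    rw [h7] at h6
    apply h2 (C i0) hsub ⟨i0, hmem⟩
    refine h6.mono fun t ht => ?_
    rw [Finset.sum_empty] at ht
    exact (map_eq_zero ψ').1 ht.symm
  refine ⟨i1, hi1, ?_⟩
  have h7 : (I.filter fun i => P (Sum.inl i)) = C i1 := by
    ext i
    rw [Finset.mem_filter, hC]
    refine and_congr_right fun _ => ⟨?_, ?_⟩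
    · intro h
      obtain ⟨c, hc⟩ := Rel.trans h (Rel.symm hW0 hPi1)
      exact descend ψ (a i) (a i1) (ha0 i1) ⟨c, hc⟩
    · rintro ⟨c, hc⟩
      refine Rel.trans ?_ hPi1
      refine ⟨ψ c, hc.mono fun t ht => ?_⟩
      have h6 : a i t = c * a i1 t := ht
      rw [hWl, hWl, h6, map_mul]
  rw [h7] at h6
  refine h6.mono fun t ht => ?_
  rw [← map_sum] at ht
  exact ht.symm

end

end Pool.Agent.X4.SU
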