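import Mathlib
import Pool.Agent.X4.SU.Fwd

set_option autoImplicit false

/-! # Sums of units: the main theorem -/

namespace Pool.Agent.X4.SU

open Finset NumberField Module Filter IntermediateField

variable {K : Type} [Field K] [NumberField K]

/-- an element all of whose conjugates lie in `K` generates a field with this property -/
theorem splits_of {L : Type} [Field L] [NumberField L] [Algebra K L] [Normal ℚ L] (x : K)
    (hx : ∀ σ : L ≃ₐ[ℚ] L, ∃ y : K, σ (algebraMap K L x) = algebraMap K L y) (y : K)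
    (hy : y ∈ ℚ⟮x⟯) : ((minpoly ℚ y).map (algebraMap ℚ K)).Splits := by
  let f : K →ₐ[ℚ] L := IsScalarTower.toAlgHom ℚ K L
  have hf : ∀ z, f z = algebraMap K L z := fun z => rfl
  have h1 : ∀ σ : L ≃ₐ[ℚ] L, ∃ z : K, σ (algebraMap K L y) = algebraMap K L z := by
    intro σ
    have h2 : ℚ⟮x⟯ ≤ (f.fieldRange).comap ((σ : L →ₐ[ℚ] L).comp f) := by
      rw [IntermediateField.adjoin_simple_le_iff]
      obtain ⟨z, hz⟩ := hx σ
      exact ⟨z, hz.symm⟩
    obtain ⟨z, hz⟩ := h2 hy
    exact ⟨z, hz.symm⟩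
  have hint : IsIntegral ℚ (algebraMap K L y) := Algebra.IsIntegral.isIntegral _
  have hmin : minpoly ℚ (algebraMap K L y) = minpoly ℚ y :=
    minpoly.algebraMap_eq (algebraMap K L).injective y
  have hmap : ((minpoly ℚ y).map (algebraMap ℚ K)).map (algebraMap K L) =
      (minpoly ℚ y).map (algebraMap ℚ L) := by
    rw [Polynomial.map_map, ← IsScalarTower.algebraMap_eq]
  refine Polynomial.Splits.of_splits_map (algebraMap K L) ?_ ?_
  · rw [hmap, ← hmin]
    exact Normal.splits inferInstance _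
  · intro a ha
    rw [hmap] at ha
    have h3 : Polynomial.aeval a (minpoly ℚ (algebraMap K L y)) = 0 := by
      rw [hmin]
      exact (Polynomial.mem_aroots.1 ha).2
    obtain ⟨σ, hσ⟩ := isConjRoot_iff_exists_algEquiv.1
      ((isConjRoot_iff_aeval_eq_zero hint).2 h3).symm
    obtain ⟨z, hz⟩ := h1 σ
    exact ⟨z, by rw [← hz, hσ]⟩

/-- the degree is at most the number of conjugates -/
theorem degree_le {L : Type} [Field L] [NumberField L] [Algebra K L] [Normal ℚ L] (x : K)
    (S : Finset L) (hx : ∀ σ : L ≃ₐ[ℚ] L, σ (algebraMap K L x) ∈ S) :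
    finrank ℚ ℚ⟮x⟯ ≤ S.card := by
  classical
  have hintK : IsIntegral ℚ x := Algebra.IsIntegral.isIntegral _
  have hint : IsIntegral ℚ (algebraMap K L x) := Algebra.IsIntegral.isIntegral _
  have hmin : minpoly ℚ (algebraMap K L x) = minpoly ℚ x :=
    minpoly.algebraMap_eq (algebraMap K L).injective x
  rw [IntermediateField.adjoin.finrank hintK, ← hmin,
    ← Polynomial.card_rootSet_eq_natDegree (K := L) (minpoly.irreducible hint).separable
      (Normal.splits inferInstance _), ← Set.toFinset_card]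
  refine Finset.card_le_card fun a ha => ?_
  rw [Set.mem_toFinset, Polynomial.mem_rootSet] at ha
  obtain ⟨σ, hσ⟩ := isConjRoot_iff_exists_algEquiv.1
      ((isConjRoot_iff_aeval_eq_zero hint).2 ha.2).symm
  rw [← hσ]
  exact hx σ

/-- **Fields with infinitely many sums of units.** -/
theorem forward (m : ℕ) (hinf : (sumsOfUnits K m).Infinite) :
    ∃ E : IntermediateField ℚ K, finrank ℚ E ≤ m ∧
      (∀ x : E, ((minpoly ℚ x).map (algebraMap ℚ K)).Splits) ∧ Infinite (𝓞 E)ˣ := by
  classical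
  let em := Set.Infinite.natEmbedding _ hinf
  have hem : ∀ t, ∃ u : Fin m → (𝓞 K)ˣ, (((em t : ℕ)) : 𝓞 K) = ∑ i, (u i : 𝓞 K) :=
    fun t => (em t).2.2
  choose u' hu' using hem
  set n : ℕ → ℕ := fun t => (em t : ℕ) with hn
  have hninj : Function.Injective n := fun s t h => em.injective (Subtype.ext h)
  let u : Fin m → ℕ → (𝓞 K)ˣ := fun i t => u' t i
  set a : Fin m → ℕ → K := fun i t => ((u i t : 𝓞 K) : K) with ha
  have ha0 : ∀ i t, a i t ≠ 0 := fun i t => NumberField.Units.coe_ne_zero _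
  have hsum : ∀ t, ∑ i, a i t = n t := by
    intro t
    have h1 := congrArg (algebraMap (𝓞 K) K) (hu' t)
    rw [map_sum, map_natCast] at h1
    exact h1.symm
  -- a maximal vanishing set
  obtain ⟨J0, hJ0, hmax⟩ := Finset.exists_max_image
    ((univ : Finset (Finset (Fin m))).filter fun J =>
      ∀ᶠ t in (UF : Filter ℕ), ∑ i ∈ J, a i t = 0) Finset.card
    ⟨∅, Finset.mem_filter.2 ⟨Finset.mem_univ _, Eventually.of_forall fun t => Finset.sum_empty⟩⟩
  have hJ0' := (Finset.mem_filter.1 hJ0).2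
  set I : Finset (Fin m) := J0ᶜ with hI
  have h1 : ∀ᶠ t in (UF : Filter ℕ), ∑ i ∈ I, a i t = n t := by
    filter_upwards [hJ0'] with t ht
    have h2 := Finset.sum_add_sum_compl J0 (fun i => a i t)
    rw [ht, zero_add, hsum] at h2
    exact h2
  have h2 : ∀ J ⊆ I, J.Nonempty → ¬ ∀ᶠ t in (UF : Filter ℕ), ∑ i ∈ J, a i t = 0 := by
    intro J hJ hne hcon
    have hdis : Disjoint J0 J := by
      rw [Finset.disjoint_left]
      intro i hi hi'
      exact (Finset.mem_compl.1 (hJ hi')) hi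
    have h3 := hmax (J0 ∪ J) (Finset.mem_filter.2 ⟨Finset.mem_univ _, by
      filter_upwards [hJ0', hcon] with t h4 h5
      rw [Finset.sum_union hdis, h4, h5, add_zero]⟩)
    rw [Finset.card_union_of_disjoint hdis] at h3
    have := hne.card_pos
    omega
  -- a term which is not constant
  obtain ⟨i0, hi0, hnc⟩ : ∃ i0 ∈ I, ¬ ∃ c : K, ∀ᶠ t in (UF : Filter ℕ), a i0 t = c := by
    by_contra hcon
    push Not at hcon
    choose! c hc using hcon
    have h3 : ∀ᶠ t in (UF : Filter ℕ), ∀ i ∈ I, a i t = c i :=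
      (Filter.eventually_all_finset _).2 fun i hi => hc i hi
    have h4 : ∀ᶠ t in (UF : Filter ℕ), ((n t : ℕ) : K) = ∑ i ∈ I, c i := by
      filter_upwards [h1, h3] with t h5 h6
      rw [← h5]
      exact Finset.sum_congr rfl h6
    have h5 : {t | ((n t : ℕ) : K) = ∑ i ∈ I, c i}.Finite := by
      refine Set.Subsingleton.finite ?_
      intro s hs t ht
      apply hninj
      have h6 : ((n s : ℕ) : K) = (n t : ℕ) := by
        rw [show ((n s : ℕ) : K) = _ from hs, show ((n t : ℕ) : K) = _ from ht]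
      exact_mod_cast h6
    exact notMem_hyperfilter_of_finite h5 h4
  -- the classes
  let C : Fin m → Finset (Fin m) := fun i => I.filter fun j => Rel a j i
  have hC : ∀ i j, j ∈ C i ↔ j ∈ I ∧ Rel a j i := fun i j => Finset.mem_filter
  set w : Fin m → ℕ → K := fun i t => ∑ j ∈ C i, a j t with hw
  -- the Galois closure
  let L : Type := IntermediateField.normalClosure ℚ K (AlgebraicClosure K)
  let _ : NumberField L :=
    { to_charZero := inferInstance
      to_finiteDimensional := normalClosure.is_finiteDimensional ℚ K (AlgebraicClosure K) }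
  have halg : Algebra.IsAlgebraic ℚ (AlgebraicClosure K) :=
    Algebra.IsAlgebraic.trans ℚ K (AlgebraicClosure K)
  have hcl : IsAlgClosure ℚ (AlgebraicClosure K) := ⟨inferInstance, halg⟩
  have hno : Normal ℚ (AlgebraicClosure K) := IsAlgClosure.normal ℚ (AlgebraicClosure K)
  have hnorm : Normal ℚ L := normalClosure.normal ℚ K (AlgebraicClosure K)
  have hfinσ : Finite (L ≃ₐ[ℚ] L) := inferInstance
  have h3 : ∀ᶠ t in (UF : Filter ℕ), ∀ σ : L ≃ₐ[ℚ] L, ∃ i1 ∈ I,
      σ (algebraMap K L (w i0 t)) = algebraMap K L (w i1 t) := by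
    rw [Filter.eventually_all]
    intro σ
    obtain ⟨i1, hi1, h4⟩ := perm (L := L) n u I h1 h2 C hC σ i0 hi0
    exact h4.mono fun t ht => ⟨i1, hi1, ht⟩
  -- the field is constant
  have hfinE : Finite (IntermediateField ℚ K) :=
    Field.finite_intermediateField_of_exists_primitive_element ℚ K
      (Field.exists_primitive_element ℚ K)
  obtain ⟨E, -, hE⟩ := const_of_finite (fun t => ℚ⟮w i0 t⟯) (S := Set.univ) (Set.toFinite _)
    (Eventually.of_forall fun t => Set.mem_univ _)
  -- the class of `i0` is proportional to the term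
  obtain ⟨c0, hc0⟩ : ∃ c0 : K, ∀ᶠ t in (UF : Filter ℕ), w i0 t = c0 * a i0 t := by
    have h4 : ∀ j ∈ C i0, ∃ c : K, ∀ᶠ t in (UF : Filter ℕ), a j t = c * a i0 t :=
      fun j hj => ((hC i0 j).1 hj).2
    choose! c hc using h4
    refine ⟨∑ j ∈ C i0, c j, ?_⟩
    filter_upwards [(Filter.eventually_all_finset _).2 hc] with t ht
    rw [hw, Finset.sum_mul]
    exact Finset.sum_congr rfl ht
  have hmem : i0 ∈ C i0 := (hC i0 i0).2 ⟨hi0, Rel.refl _ _⟩
  have hc00 : c0 ≠ 0 := by
    rintro rfl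
    apply h2 (C i0) (fun i hi => ((hC i0 i).1 hi).1) ⟨i0, hmem⟩
    refine hc0.mono fun t ht => ?_
    rw [zero_mul] at ht
    exact ht
  have hgood := (h3.and hE).and hc0
  obtain ⟨t0, ⟨⟨h30, hE0⟩, hc0'⟩⟩ := hgood.exists
  refine ⟨E, ?_, ?_, ?_⟩
  · rw [← hE0]
    refine (degree_le (L := L) (w i0 t0) (I.image fun i => algebraMap K L (w i t0)) ?_).trans ?_
    · intro σ
      obtain ⟨i1, hi1, h4⟩ := h30 σ
      rw [h4]
      exact Finset.mem_image_of_mem _ hi1
    · refine Finset.card_image_le.trans ((Finset.card_le_univ _).trans ?_)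
      rw [Fintype.card_fin]
  · intro x
    have h4 : (x : K) ∈ ℚ⟮w i0 t0⟯ := by
      have h5 : (ℚ⟮w i0 t0⟯ : IntermediateField ℚ K) = E := hE0
      rw [h5]
      exact x.2
    have h5 := splits_of (L := L) (w i0 t0) (fun σ => by
      obtain ⟨i1, -, h6⟩ := h30 σ
      exact ⟨_, h6⟩) x h4
    have h6 : minpoly ℚ (x : K) = minpoly ℚ x :=
      minpoly.algebraMap_eq (algebraMap E K).injective x
    rw [← h6]
    exact h5
  · by_contra hcon
    have hfin : Finite (𝓞 E)ˣ := not_infinite_iff_finite.1 hcon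
    apply hnc
    have hS : (Set.range fun v : (𝓞 E)ˣ => (((v : 𝓞 E) : E) : K)).Finite := Set.finite_range _
    have h4 : ∀ᶠ t in (UF : Filter ℕ), a i0 t / a i0 t0 ∈
        Set.range fun v : (𝓞 E)ˣ => (((v : 𝓞 E) : E) : K) := by
      filter_upwards [hE, hc0] with t h5 h6
      have h7 : w i0 t ∈ E := by
        have h8 : (ℚ⟮w i0 t⟯ : IntermediateField ℚ K) = E := h5
        rw [← h8]
        exact mem_adjoin_simple_self ℚ _
      have h8 : w i0 t0 ∈ E := by
        have h9 : (ℚ⟮w i0 t0⟯ : IntermediateField ℚ K) = E := hE0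
        rw [← h9]
        exact mem_adjoin_simple_self ℚ _
      have h9 : a i0 t / a i0 t0 ∈ E := by
        have h10 : a i0 t / a i0 t0 = w i0 t / w i0 t0 := by
          rw [h6, hc0', mul_div_mul_left _ _ hc00]
        rw [h10]
        exact div_mem h7 h8
      -- the quotient is a unit
      have hq : ∀ s t' : ℕ, ∀ hz : a i0 s / a i0 t' ∈ E,
          IsIntegral ℤ (⟨a i0 s / a i0 t', hz⟩ : E) := by
        intro s t' hz
        have h11 : IsIntegral ℤ (((u i0 s / u i0 t' : (𝓞 K)ˣ) : 𝓞 K) : K) :=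
          RingOfIntegers.isIntegral_coe _
        have h12 : (((u i0 s / u i0 t' : (𝓞 K)ˣ) : 𝓞 K) : K) = a i0 s / a i0 t' := by
          rw [eq_div_iff (ha0 _ _)]
          have h13 : ((u i0 s / u i0 t' : (𝓞 K)ˣ) : 𝓞 K) * (u i0 t' : 𝓞 K) = (u i0 s : 𝓞 K) := by
            rw [← Units.val_mul, div_mul_cancel]
          have h14 := congrArg (algebraMap (𝓞 K) K) h13
          rw [map_mul] at h14
          exact h14
        rw [h12] at h11
        exact (isIntegral_algebraMap_iff (A := E) (B := K) (algebraMap E K).injective).1 h11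
      have h9' : a i0 t0 / a i0 t ∈ E := by
        have := inv_mem h9
        rwa [inv_div] at this
      refine ⟨Units.mkOfMulEqOne ⟨⟨_, h9⟩, hq t t0 h9⟩ ⟨⟨_, h9'⟩, hq t0 t h9'⟩ ?_, rfl⟩
      apply RingOfIntegers.ext
      apply Subtype.ext
      show a i0 t / a i0 t0 * (a i0 t0 / a i0 t) = 1
      have h15 := ha0 i0 t
      have h16 := ha0 i0 t0
      field_simp
    obtain ⟨c, -, hc⟩ := const_of_finite _ hS h4
    refine ⟨c * a i0 t0, hc.mono fun t ht => ?_⟩
    rw [← ht, div_mul_cancel₀ _ (ha0 i0 t0)]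

/-- **Main theorem.** -/
theorem main (m : ℕ) : (sumsOfUnits K m).Infinite ↔
    ∃ E : IntermediateField ℚ K, finrank ℚ E ≤ m ∧
      (∀ x : E, ((minpoly ℚ x).map (algebraMap ℚ K)).Splits) ∧ Infinite (𝓞 E)ˣ :=
  ⟨forward m, fun ⟨E, h1, h2, h3⟩ => backward m E h1 h2 h3⟩

end Pool.Agent.X4.SU
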