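import Mathlib

set_option autoImplicit false

/-! # Fields with finitely many units -/

namespace Pool.Agent.X4.SU

open Finset NumberField Module

/-- the unit group is finite only for the rational field and for imaginary quadratic fields -/
theorem infinite_units_iff (F : Type) [Field F] [NumberField F] :
    Infinite (𝓞 F)ˣ ↔ ¬ (finrank ℚ F = 1 ∨ (finrank ℚ F = 2 ∧ IsTotallyComplex F)) := by
  have h1 := InfinitePlace.card_add_two_mul_card_eq_rank F
  have h2 : Units.rank F =
      InfinitePlace.nrRealPlaces F + InfinitePlace.nrComplexPlaces F - 1 := by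
    rw [← InfinitePlace.card_eq_nrRealPlaces_add_nrComplexPlaces]
    rfl
  have h3 : 0 < finrank ℚ F := Module.finrank_pos
  have h4 : (finrank ℚ F = 1 ∨ (finrank ℚ F = 2 ∧ IsTotallyComplex F)) ↔ Units.rank F = 0 := by
    rw [← nrRealPlaces_eq_zero_iff]
    omega
  rw [h4, ← not_iff_not, not_not, not_infinite_iff_finite]
  constructor
  · intro hfin
    by_contra h6
    have h7 : 0 < Units.rank F := Nat.pos_of_ne_zero h6
    let i0 : Fin (Units.rank F) := ⟨0, h7⟩
    have h8 : ∀ k : ℤ, Units.fundSystem F i0 ^ k =
        ((1 : Units.torsion F) : (𝓞 F)ˣ) *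
          ∏ i, Units.fundSystem F i ^ (Pi.single i0 k : Fin (Units.rank F) → ℤ) i := by
      intro k
      rw [Finset.prod_eq_single i0]
      · rw [Pi.single_eq_same]
        simp
      · intro i _ hi
        rw [Pi.single_eq_of_ne hi, zpow_zero]
      · exact fun h => absurd (Finset.mem_univ _) h
    have h9 : Function.Injective fun k : ℤ => Units.fundSystem F i0 ^ k := by
      intro k l hkl
      have hkl' : Units.fundSystem F i0 ^ k = Units.fundSystem F i0 ^ l := hkl
      obtain ⟨z, -, hz⟩ := Units.exist_unique_eq_mul_prod F (Units.fundSystem F i0 ^ k)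
      have h10 := hz (1, Pi.single i0 k) (h8 k)
      have h11 := hz (1, Pi.single i0 l) (by
        show Units.fundSystem F i0 ^ k = _
        rw [hkl']
        exact h8 l)
      have h12 : (Pi.single i0 k : Fin (Units.rank F) → ℤ) = Pi.single i0 l := by
        rw [← h11] at h10
        exact congrArg Prod.snd h10
      have h13 := congrFun h12 i0
      rwa [Pi.single_eq_same, Pi.single_eq_same] at h13
    exact not_injective_infinite_finite _ h9
  · intro h5
    have h6 : ∀ x : (𝓞 F)ˣ, x ∈ Set.range fun ζ : Units.torsion F => (ζ : (𝓞 F)ˣ) := by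
      intro x
      obtain ⟨ζ, hζ, -⟩ := Units.exist_unique_eq_mul_prod F x
      refine ⟨ζ.1, ?_⟩
      have h7 : IsEmpty (Fin (Units.rank F)) := by
        rw [h5]
        infer_instance
      have h8 : x = (ζ.1 : (𝓞 F)ˣ) * ∏ i, Units.fundSystem F i ^ ζ.2 i := hζ
      rw [Finset.univ_eq_empty, Finset.prod_empty, mul_one] at h8
      exact h8.symm
    exact Finite.of_surjective (fun ζ : Units.torsion F => (ζ : (𝓞 F)ˣ)) h6

end Pool.Agent.X4.SU
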